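import Mathlib
import Pool.Agent.H433R3.Rioul2

set_option autoImplicit false

namespace Pool.Agent.Results.MP_057a77_an.ZakZero

/-- The Zak transform `Zf(t, ξ) = ∑ₖ f(t + k) exp(2 π i k ξ)`. -/
noncomputable def zak (f : ℝ → ℂ) (t ξ : ℝ) : ℂ :=
  ∑' k : ℤ, f (t + k) * Complex.exp (2 * Real.pi * Complex.I * (k * ξ))

/-- The symbol `D(ξ) = ∑ₖ dₖ exp(2 π i k ξ)` of a finitely supported mask `d`. -/
noncomputable def symbol (d : ℤ →₀ ℂ) (ξ : ℝ) : ℂ :=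
  d.sum fun k c => c * Complex.exp (2 * Real.pi * Complex.I * (k * ξ))

/-- The dilation equation `φ(t/2) = ∑ₖ dₖ φ(t - k)`. -/
def Dilation (φ : ℝ → ℂ) (d : ℤ →₀ ℂ) : Prop :=
  ∀ t : ℝ, φ (t / 2) = d.sum fun k c => c * φ (t - k)

/-- `D` has a pair of symmetric zeros: `D(ξ₀) = D(ξ₀ + 1/2) = 0` for some `ξ₀` in `[0, 1)`. -/
def HasSymmetricZeros (d : ℤ →₀ ℂ) : Prop :=
  ∃ ξ₀ ∈ Set.Ico (0:ℝ) 1, symbol d ξ₀ = 0 ∧ symbol d (ξ₀ + 1 / 2) = 0

theorem exp_eq (k : ℤ) (ξ : ℝ) : Complex.exp (2 * Real.pi * Complex.I * (k * ξ)) =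
    Complex.exp (2 * Real.pi * Complex.I * ξ) ^ k := by
  rw [← Complex.exp_int_mul]
  congr 1; ring

/-- Rioul's conjecture fails, even for arbitrarily smooth functions. -/
theorem result (N : ℕ) : ∃ (φ : ℝ → ℂ) (d : ℤ →₀ ℂ),
    ContDiff ℝ N φ ∧ HasCompactSupport φ ∧ φ ≠ 0 ∧ Dilation φ d ∧ ¬ HasSymmetricZeros d ∧
      ∀ t : ℝ, (∃ ξ : ℝ, zak φ t ξ = 0) ∧ ⨅ ξ : ℝ, ‖zak φ t ξ‖ = 0 := by
  obtain ⟨φ, d, R, h⟩ := Pool.Agent.H433R3.Rioul.all_good N
  have hsum : ∀ g : ℤ → ℂ → ℂ, (∀ k, g k 0 = 0) →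
      (d.mapRange (fun c : ℝ => (c : ℂ)) (by simp)).sum g = d.sum fun k c => g k (c : ℂ) := by
    intro g hg
    rw [Finsupp.sum_mapRange_index hg]
  have hz : ∀ t : ℝ, zak (fun t => (φ t : ℂ)) t (1 / 3) = 0 := by
    intro t
    rw [← h.zak t]
    unfold zak
    apply tsum_congr
    intro k
    rw [exp_eq]
    congr 2
    unfold Pool.Agent.H433R3.Rioul.om
    congr 1
    push_cast; ring
  refine ⟨fun t => (φ t : ℂ), d.mapRange (fun c : ℝ => (c : ℂ)) (by simp), ?_, ?_, ?_, ?_, ?_, ?_⟩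
  · exact Complex.ofRealCLM.contDiff.comp h.smooth
  · apply HasCompactSupport.intro (K := Metric.closedBall (0:ℝ) R) (isCompact_closedBall _ _)
    intro x hx
    rw [Metric.mem_closedBall, dist_zero_right, not_le, Real.norm_eq_abs] at hx
    rw [h.supp x hx]; simp
  · obtain ⟨t, ht⟩ := h.pos
    intro h0
    have := congrFun h0 t
    simp only [Pi.zero_apply, Complex.ofReal_eq_zero] at this
    linarith
  · intro t
    rw [hsum _ (fun k => by simp)]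
    show ((φ (t / 2) : ℝ) : ℂ) = _
    rw [h.refine' t]
    unfold Finsupp.sum
    push_cast
    rfl
  · rintro ⟨ξ, _, h1, h2⟩
    unfold symbol at h1 h2
    rw [hsum _ (fun k => by simp)] at h1 h2
    simp_rw [exp_eq] at h1 h2
    have e1 := h.sym _ (Complex.exp_ne_zero _) h1
    have e2 := h.sym _ (Complex.exp_ne_zero _) h2
    have e3 : Complex.exp (2 * Real.pi * Complex.I * ((ξ + 1 / 2 : ℝ) : ℂ)) =
        - Complex.exp (2 * Real.pi * Complex.I * ξ) := by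
      have : 2 * Real.pi * Complex.I * ((ξ + 1 / 2 : ℝ) : ℂ) =
          2 * Real.pi * Complex.I * ξ + Real.pi * Complex.I := by
        push_cast; ring
      rw [this, Complex.exp_add, Complex.exp_pi_mul_I]; ring
    rw [e3] at e2
    have e4 : (-Complex.exp (2 * Real.pi * Complex.I * ξ)) ^ 3 =
        - (Complex.exp (2 * Real.pi * Complex.I * ξ)) ^ 3 := by ring
    rw [e4, e1] at e2
    norm_num at e2
  · intro t
    refine ⟨⟨1 / 3, hz t⟩, ?_⟩
    apply le_antisymm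
    · have hb : BddBelow (Set.range fun ξ : ℝ => ‖zak (fun t => (φ t : ℂ)) t ξ‖) :=
        ⟨0, by rintro _ ⟨ξ, rfl⟩; exact norm_nonneg _⟩
      refine (ciInf_le hb (1 / 3)).trans ?_
      rw [hz t, norm_zero]
    · exact Real.iInf_nonneg fun ξ => norm_nonneg _

end Pool.Agent.Results.MP_057a77_an.ZakZero
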